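import Mathlib

open Finset
open scoped BigOperators

namespace Pool.Agent.H.MP_53494a_pr

section gen
variable {I V : Type} [Fintype I] [DecidableEq I] [Fintype V]

lemma exp_prod (g : I → V → ℝ) : 𝔼 ω : I → V, ∏ i, g i (ω i) = ∏ i, 𝔼 v, g i v := by
  simp only [Fintype.expect_eq_sum_div_card]
  rw [prod_div_distrib, prod_univ_sum, Fintype.piFinset_univ]
  simp

lemma stop [Nonempty V] {σ : Type} (s : (I → V) → σ) (D : σ → I → Prop)
    (hs : ∀ ω ω', (∀ z, D (s ω) z → ω z = ω' z) → s ω' = s ω) (h : σ → (I → V) → ℝ)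
    (hh : ∀ ω ω₁ ω₂, (∀ z, ¬ D (s ω) z → ω₁ z = ω₂ z) → h (s ω) ω₁ = h (s ω) ω₂) :
    𝔼 ω, h (s ω) ω = 𝔼 ω, 𝔼 ω', h (s ω) ω' := by
  classical
  let Φ : (I → V) × (I → V) → (I → V) × (I → V) := fun p =>
    (fun z => if D (s p.1) z then p.1 z else p.2 z, fun z => if D (s p.1) z then p.2 z else p.1 z)
  have h1 : ∀ p, s (Φ p).1 = s p.1 := fun p => hs _ _ fun z hz => by simp [Φ, hz]
  have hi : Function.Involutive Φ := by
    intro p
    have := h1 p
    refine Prod.ext (funext fun z => ?_) (funext fun z => ?_)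
    · show (if D (s (Φ p).1) z then (Φ p).1 z else (Φ p).2 z) = _
      rw [this]; by_cases hz : D (s p.1) z <;> simp [Φ, hz]
    · show (if D (s (Φ p).1) z then (Φ p).2 z else (Φ p).1 z) = _
      rw [this]; by_cases hz : D (s p.1) z <;> simp [Φ, hz]
  calc 𝔼 ω, h (s ω) ω = 𝔼 ω, 𝔼 _ω' : I → V, h (s ω) ω := by simp
    _ = 𝔼 p : (I → V) × (I → V), h (s p.1) p.1 := by
        rw [← expect_product', univ_product_univ]
    _ = 𝔼 p : (I → V) × (I → V), h (s p.1) p.2 := by
        symm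
        refine Fintype.expect_bijective Φ hi.bijective _ _ fun p => ?_
        rw [h1]
        exact hh _ _ _ fun z hz => by simp [Φ, hz]
    _ = _ := by rw [← expect_product', univ_product_univ]

lemma indep [Nonempty V] (D : I → Prop) (f g : (I → V) → ℝ)
    (hf : ∀ ω ω', (∀ z, D z → ω z = ω' z) → f ω' = f ω)
    (hg : ∀ ω ω', (∀ z, ¬ D z → ω z = ω' z) → g ω = g ω') :
    𝔼 ω, f ω * g ω = (𝔼 ω, f ω) * 𝔼 ω, g ω := by
  rw [stop f (fun _ => D) hf (fun r ω => r * g ω) fun _ _ _ h => by rw [hg _ _ h]]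
  simp_rw [← mul_expect]
  rw [← expect_mul]

lemma indep_prod [Nonempty V] {κ : Type} (lab : I → κ) (f : κ → (I → V) → ℝ) (S : Finset κ)
    (hf : ∀ k ∈ S, ∀ ω ω', (∀ z, lab z = k → ω z = ω' z) → f k ω' = f k ω) :
    𝔼 ω, ∏ k ∈ S, f k ω = ∏ k ∈ S, 𝔼 ω, f k ω := by
  classical
  induction S using Finset.induction_on with
  | empty => simp
  | insert a S ha ih =>
    simp only [prod_insert ha]
    rw [indep (fun z => lab z = a) (f a) (fun ω => ∏ k ∈ S, f k ω) (hf a (mem_insert_self _ _)),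
      ih fun k hk => hf k (mem_insert_of_mem hk)]
    intro ω ω' h
    refine prod_congr rfl fun k hk => (hf k (mem_insert_of_mem hk) _ _ fun z hz => h z ?_).symm
    rintro rfl
    exact ha (hz ▸ hk)

lemma zero_on {M : ℕ} [NeZero M] (F : Finset I) :
    𝔼 ω : I → Fin M, (if ∀ z ∈ F, ω z = 0 then (1 : ℝ) else 0) = (1 / M) ^ #F := by
  have h := exp_prod (I := I) (V := Fin M) fun z v => if z ∈ F then if v = 0 then (1 : ℝ) else 0 else 1
  have e : ∀ z, (𝔼 v : Fin M, if z ∈ F then if v = 0 then (1 : ℝ) else 0 else 1)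
      = if z ∈ F then (1 / M : ℝ) else 1 := by
    intro z
    split_ifs
    · simp [Fintype.expect_eq_sum_div_card]
    · simp
  simp only [e, prod_ite_mem, univ_inter, prod_const] at h
  rw [← h]
  refine expect_congr rfl fun ω _ => ?_
  rw [prod_boole]
  simp

lemma bonf {M : ℕ} [NeZero M] {κ : Type} (S : Finset κ) (F : κ → Finset I) (m : ℕ)
    (hc : ∀ t ∈ S, #(F t) = m) (hi : Set.InjOn F S) (hM : 2 * #S ≤ M)
    [∀ ω : I → Fin M, Decidable (∃ t ∈ S, ∀ z ∈ F t, ω z = 0)] :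
    #S * (1 / M : ℝ) ^ m / 2 ≤
      𝔼 ω : I → Fin M, (if ∃ t ∈ S, ∀ z ∈ F t, ω z = 0 then (1 : ℝ) else 0) := by
  classical
  have hM0 : (0 : ℝ) < M := by exact_mod_cast NeZero.pos M
  have h1 : ∀ ω : I → Fin M,
      2 * (∑ t ∈ S, if ∀ z ∈ F t, ω z = 0 then (1 : ℝ) else 0)
        - (∑ t ∈ S, ∑ t' ∈ S, if ∀ z ∈ F t ∪ F t', ω z = 0 then (1 : ℝ) else 0)
        ≤ if ∃ t ∈ S, ∀ z ∈ F t, ω z = 0 then (1 : ℝ) else 0 := by
    intro ω
    have : (∑ t ∈ S, ∑ t' ∈ S, if ∀ z ∈ F t ∪ F t', ω z = 0 then (1 : ℝ) else 0)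
        = (∑ t ∈ S, if ∀ z ∈ F t, ω z = 0 then (1 : ℝ) else 0) ^ 2 := by
      rw [sq, sum_mul_sum]
      refine sum_congr rfl fun t _ => sum_congr rfl fun t' _ => ?_
      simp only [forall_mem_union, ite_and, ite_mul, one_mul, zero_mul]
    rw [this]
    split_ifs with h
    · nlinarith [sq_nonneg ((∑ t ∈ S, if ∀ z ∈ F t, ω z = 0 then (1 : ℝ) else 0) - 1)]
    · rw [sum_eq_zero fun t ht => if_neg fun h' => h ⟨t, ht, h'⟩]
      simp
  refine le_trans ?_ (expect_le_expect fun ω _ => h1 ω)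
  rw [expect_sub_distrib, ← mul_expect]
  simp only [expect_sum_comm, zero_on]
  rw [sum_congr rfl fun t ht => by rw [hc t ht]]
  have h2 : ∀ t ∈ S, ∑ t' ∈ S, (1 / M : ℝ) ^ #(F t ∪ F t') ≤ (1 / M) ^ m + #S * (1 / M) ^ (m + 1) := by
    intro t ht
    rw [← add_sum_erase _ _ ht, union_self, hc t ht]
    gcongr
    calc _ ≤ ∑ _t' ∈ S.erase t, (1 / M : ℝ) ^ (m + 1) := by
          refine sum_le_sum fun t' ht' => pow_le_pow_of_le_one (by positivity) ?_ ?_
          · rw [div_le_one hM0]; exact_mod_cast NeZero.pos M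
          · obtain ⟨hne, ht'⟩ := mem_erase.1 ht'
            rw [← hc t ht]
            refine card_lt_card ⟨subset_union_left, fun h => hne (hi ht' ht ?_)⟩
            exact eq_of_subset_of_card_le (subset_union_right.trans h) (by rw [hc t ht, hc t' ht'])
      _ ≤ _ := by
          rw [sum_const, nsmul_eq_mul]
          gcongr
          exact erase_subset _ _
  have h3 := sum_le_sum h2
  have h4 : (#S : ℝ) * (1 / M) ≤ 1 / 2 := by
    have : (2 : ℝ) * #S ≤ M := by exact_mod_cast hM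
    rw [mul_one_div, div_le_iff₀ hM0]; linarith
  simp only [sum_const, nsmul_eq_mul, pow_succ] at h3 ⊢
  have h5 : (0 : ℝ) ≤ #S * (1 / M) ^ m := by positivity
  nlinarith [mul_le_mul_of_nonneg_left h4 h5]

end gen

/-- admissible increments -/
def Adm {m : ℕ} (z : Fin m → ℕ) (t : ℕ) : Finset (Fin m → ℕ) :=
  {d ∈ Fintype.piFinset fun _ => Icc 1 (3 * m) | ∑ i, (z i - 3 * t) * d i ≤ ∑ i, (z i - 3 * t) * 3}

lemma mem_Adm {m : ℕ} {z : Fin m → ℕ} {t : ℕ} {d : Fin m → ℕ} : d ∈ Adm z t ↔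
    (∀ i, 1 ≤ d i ∧ d i ≤ 3 * m) ∧ ∑ i, (z i - 3 * t) * d i ≤ ∑ i, (z i - 3 * t) * 3 := by
  simp [Adm]

lemma card_Adm {m : ℕ} [NeZero m] (z : Fin m → ℕ) (t : ℕ) :
    (3 * m).choose m ≤ m * #(Adm z t) := by
  classical
  have hm := NeZero.pos m
  have h := card_finsuppAntidiag_nat_eq_choose (s := (univ : Finset (Option (Fin m)))) (2 * m)
  rw [card_univ, Fintype.card_option, Fintype.card_fin,
    show m + 1 + 2 * m - 1 = 3 * m by omega, ← Nat.choose_symm (by omega),
    show 3 * m - 2 * m = m by omega] at h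
  rw [← h]
  have hs : ∀ e ∈ (univ : Finset (Option (Fin m))).finsuppAntidiag (2 * m),
      e none + ∑ i, e (some i) = 2 * m := by
    intro e he
    rw [← Fintype.sum_option]
    exact (mem_finsuppAntidiag.1 he).1
  calc _ ≤ #(univ.biUnion fun k : Fin m =>
        {e ∈ (univ : Finset (Option (Fin m))).finsuppAntidiag (2 * m) |
          (fun i => e (some (i + k)) + 1) ∈ Adm z t}) := by
        refine card_le_card fun e he => ?_
        have h1 := hs e he
        obtain ⟨k, -, hk⟩ := exists_le_of_sum_le (s := (univ : Finset (Fin m))) univ_nonempty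
          (f := fun k => ∑ i, (z i - 3 * t) * (e (some (i + k)) + 1))
          (g := fun _ => ∑ i, (z i - 3 * t) * 3) (by
            rw [sum_comm, sum_comm (f := fun _ i => (z i - 3 * t) * 3)]
            refine sum_le_sum fun i _ => ?_
            rw [← mul_sum, ← mul_sum]
            refine Nat.mul_le_mul_left _ ?_
            have h2 : ∑ k, (e (some (i + k)) + 1) = ∑ k, (e (some k) + 1) :=
              Equiv.sum_comp (Equiv.addLeft i) fun k => e (some k) + 1
            rw [h2, sum_add_distrib]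
            simp only [sum_const, card_univ, Fintype.card_fin, smul_eq_mul]
            omega)
        simp only [mem_biUnion, mem_univ, true_and, mem_filter]
        refine ⟨k, he, mem_Adm.2 ⟨fun i => ⟨by omega, ?_⟩, hk⟩⟩
        have := single_le_sum (f := fun i => e (some i)) (fun _ _ => Nat.zero_le _) (mem_univ (i + k))
        omega
    _ ≤ #(univ : Finset (Fin m)) * #(Adm z t) := by
        refine card_biUnion_le_card_mul _ _ _ fun k _ => ?_
        refine card_le_card_of_injOn (fun e i => e (some (i + k)) + 1)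
          (fun e he => (mem_filter.1 he).2) fun e he e' he' h => ?_
        have h1 := hs e (mem_filter.1 he).1
        have h2 := hs e' (mem_filter.1 he').1
        have h3 : ∀ i, e (some i) = e' (some i) := fun i => by
          simpa using congrFun h (i - k)
        ext o
        cases o with
        | none => simp only [h3] at h1; omega
        | some i => exact h3 i
    _ = _ := by simp

lemma black {m : ℕ} {z : Fin m → ℕ} {t : ℕ} {d : Fin m → ℕ} (hd : d ∈ Adm z t)
    (h : ∑ i, (z i - 3 * t) ^ 2 ≤ t * (m * (3 * m) ^ 2)) :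
    ∑ i, (z i + d i - 3 * (t + 1)) ^ 2 ≤ (t + 1) * (m * (3 * m) ^ 2) := by
  obtain ⟨h1, h2⟩ := mem_Adm.1 hd
  have h3 : ∀ i ∈ univ, (z i + d i - 3 * (t + 1)) ^ 2 + 2 * ((z i - 3 * t) * 3)
      ≤ (z i - 3 * t) ^ 2 + 2 * ((z i - 3 * t) * d i) + (3 * m) ^ 2 := by
    intro i _
    obtain ⟨a, b⟩ := h1 i
    have hm : 1 ≤ m := by omega
    generalize hu : z i + d i - 3 * (t + 1) = u
    generalize hw : z i - 3 * t = w
    have : u = 0 ∨ u + 3 ≤ w + d i := by omega
    zify at a b hm ⊢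
    rcases this with rfl | h
    · push_cast
      nlinarith [sq_nonneg ((w : ℤ) + d i - 3)]
    · zify at h
      have h0 : (0 : ℤ) ≤ u := Nat.cast_nonneg u
      have : (u : ℤ) ^ 2 ≤ (w + d i - 3) ^ 2 := by nlinarith
      nlinarith
  have h4 := sum_le_sum h3
  simp only [sum_add_distrib, ← mul_sum, sum_const, card_univ, Fintype.card_fin, smul_eq_mul] at h4
  nlinarith

lemma card_mod {T g : ℕ} (hg : g < T) (k : ℕ) : #{x ∈ range (T * k) | x % T = g} = k := by
  conv_rhs => rw [← card_range k]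
  symm
  refine card_bij (fun b _ => g + T * b) (fun b hb => ?_) (fun b _ b' _ h => ?_) fun x hx => ?_
  · simp only [mem_range, mem_filter] at hb ⊢
    refine ⟨by nlinarith, by simp [Nat.mod_eq_of_lt hg]⟩
  · exact Nat.eq_of_mul_eq_mul_left (by omega : 0 < T) (by omega)
  · simp only [mem_range, mem_filter] at hx ⊢
    exact ⟨x / T, Nat.div_lt_of_lt_mul hx.1, by rw [← hx.2, Nat.mod_add_div]⟩

end Pool.Agent.H.MP_53494a_pr
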