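import Mathlib
import Pool.Agent.H.MP_53494a_pr.A

open Finset
open scoped BigOperators

namespace Pool.Agent.H.MP_53494a_pr

structure St (m : ℕ) where
  x : Fin m → ℕ
  y : ℕ → Fin m → ℕ
  c : ℕ → ℕ
  k : ℕ
  τ : ℕ → Fin m → ℕ × ℕ

abbrev Mv (m : ℕ) := ℕ × (Fin m → ℕ) × (Fin m → ℕ)

def rr (m : ℕ) : ℕ := 10000 * m ^ 3
def RR (m : ℕ) : ℕ := 30400 * m ^ 3

variable {m P Q M : ℕ} [NeZero M]

def oc (ω : Fin m × Fin P × Fin Q → Fin M) (i : Fin m) (a c : ℕ) : Prop :=
  ∃ (ha : a < P) (hc : c < Q), ω (i, ⟨a, ha⟩, ⟨c, hc⟩) = 0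

def ok (b j : ℕ) (s : St m) (t : Mv m) : Prop :=
  t.1 < 3 * m * (100 * b) ∧ t.1 % (3 * m) = j % (3 * m) ∧ s.c t.1 < rr m ∧ t.2.1 ∈ Adm s.x j ∧
    t.2.2 ∈ Adm (s.y t.1) (s.c t.1) ∧ ∀ i, s.y t.1 i + t.2.2 i < RR m

def pr (b j : ℕ) (s : St m) (ω : Fin m × Fin P × Fin Q → Fin M) (t : Mv m) : Prop :=
  ok b j s t ∧ ∀ i, oc ω i (s.x i + t.2.1 i) (t.1 * RR m + (s.y t.1 i + t.2.2 i))

def upd (s : St m) (t : Mv m) : St m :=
  ⟨fun i => s.x i + t.2.1 i, Function.update s.y t.1 fun i => s.y t.1 i + t.2.2 i,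
    Function.update s.c t.1 (s.c t.1 + 1), s.k + 1,
    Function.update s.τ s.k fun i => (s.x i + t.2.1 i, t.1 * RR m + (s.y t.1 i + t.2.2 i))⟩

def skip (s : St m) : St m := { s with x := fun i => s.x i + 3 }

open Classical in
noncomputable def nx (s : St m) (p : Mv m → Prop) : St m :=
  if ∃ t, p t then upd s (Classical.epsilon p) else skip s

noncomputable def run (b : ℕ) (ω : Fin m × Fin P × Fin Q → Fin M) : ℕ → St m
  | 0 => ⟨0, 0, 0, 0, 0⟩
  | j + 1 => nx (run b ω j) (pr b j (run b ω j) ω)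

lemma nx_cases (s : St m) (p : Mv m → Prop) :
    (∃ t, p t ∧ nx s p = upd s t) ∨ ((¬ ∃ t, p t) ∧ nx s p = skip s) := by
  by_cases h : ∃ t, p t
  · exact .inl ⟨_, Classical.epsilon_spec h, if_pos h⟩
  · exact .inr ⟨h, if_neg h⟩

lemma x_lt (b j : ℕ) (s : St m) (ω : Fin m × Fin P × Fin Q → Fin M) (i : Fin m) :
    s.x i + 1 ≤ (nx s (pr b j s ω)).x i := by
  rcases nx_cases s (pr b j s ω) with ⟨t, ht, h⟩ | ⟨-, h⟩ <;> rw [h]
  · have := ((mem_Adm.1 ht.1.2.2.2.1).1 i).1
    simp only [upd]; omega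
  · simp [skip]

def Rg (j : ℕ) (s : St m) (z : Fin m × Fin P × Fin Q) : Prop :=
  s.x z.1 < z.2.1 ∧ z.2.1 ≤ s.x z.1 + 3 * m ∧ (z.2.2 / RR m) % (3 * m) = j % (3 * m)

def Dm (j : ℕ) (s : St m) (z : Fin m × Fin P × Fin Q) : Prop :=
  ∃ j' < j, (z.2.2 / RR m) % (3 * m) = j' % (3 * m) ∧ z.2.1 + j ≤ s.x z.1 + 3 * m + j'

lemma div_eq {β R u : ℕ} (h : u < R) : (β * R + u) / R = β := by
  rw [add_comm, Nat.add_mul_div_right _ _ (by omega), Nat.div_eq_of_lt h, zero_add]

lemma pr_of {b j : ℕ} {s : St m} {ω ω' : Fin m × Fin P × Fin Q → Fin M} {t : Mv m}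
    (h : ∀ z, Rg j s z → z.2.2 / RR m = t.1 → ω z = ω' z) (ht : pr b j s ω t) : pr b j s ω' t := by
  refine ⟨ht.1, fun i => ?_⟩
  obtain ⟨ha, hc, h0⟩ := ht.2 i
  refine ⟨ha, hc, ?_⟩
  have h1 := (mem_Adm.1 ht.1.2.2.2.1).1 i
  have h2 := div_eq (β := t.1) (ht.1.2.2.2.2.2 i)
  rw [← h0, h _ ⟨by simp only; omega, by simp only; omega, by simp only [h2, ht.1.2.1]⟩ h2]

lemma pr_eq {b j : ℕ} {s : St m} {ω ω' : Fin m × Fin P × Fin Q → Fin M}
    (h : ∀ z, Rg j s z → ω z = ω' z) : pr b j s ω = pr b j s ω' :=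
  funext fun _ => propext ⟨pr_of fun z hz _ => h z hz, pr_of fun z hz _ => (h z hz).symm⟩

lemma det (b j : ℕ) (ω ω' : Fin m × Fin P × Fin Q → Fin M)
    (h : ∀ z, Dm j (run b ω j) z → ω z = ω' z) : run b ω' j = run b ω j := by
  induction j with
  | zero => rfl
  | succ j ih =>
    have hx := x_lt b j (run b ω j) ω
    have h1 := ih fun z ⟨j', h1, h2, h3⟩ => h z ⟨j', by omega, h2, by
      have := hx z.1
      simp only [run]; omega⟩
    simp only [run, h1]
    rw [pr_eq (ω := ω) fun z ⟨_, h2, h3⟩ => h z ⟨j, by omega, h3, by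
      have := hx z.1
      simp only [run]; omega⟩]

omit [NeZero M] in
lemma disj {j : ℕ} {s : St m} {z : Fin m × Fin P × Fin Q} (h : Rg j s z) : ¬ Dm j s z := by
  rintro ⟨j', h1, h2, h3⟩
  have h4 : j' ≡ j [MOD 3 * m] := h2.symm.trans h.2.2
  have h5 := Nat.le_of_dvd (by omega) ((Nat.modEq_iff_dvd' h1.le).1 h4)
  have := h.1
  omega

/-- common pattern structure -/
def Ord (τ : ℕ → Fin m → ℕ × ℕ) (k : ℕ) : Prop :=
  ∀ a a', a < a' → a' < k → (∀ i, (τ a i).1 < (τ a' i).1) ∧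
    ((∀ i, (τ a i).2 < (τ a' i).2) ∨ ∀ i, (τ a' i).2 < (τ a i).2)

structure Inv (b j : ℕ) (s : St m) (ω : Fin m × Fin P × Fin Q → Fin M) : Prop where
  hx : ∑ i, (s.x i - 3 * j) ^ 2 ≤ j * (m * (3 * m) ^ 2)
  hy : ∀ β, ∑ i, (s.y β i - 3 * s.c β) ^ 2 ≤ s.c β * (m * (3 * m) ^ 2)
  hc : ∀ g, ∑ β ∈ range (3 * m * (100 * b)) with β % (3 * m) = g, s.c β ≤
    #{j' ∈ range j | j' % (3 * m) = g}
  hk : s.k ≤ j
  ho : ∀ a < s.k, ∀ i, oc ω i (s.τ a i).1 (s.τ a i).2
  h1 : ∀ a < s.k, ∀ i, (s.τ a i).1 ≤ s.x i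
  h2 : ∀ a < s.k, ∃ β, ∀ i, ∃ u, u ≤ s.y β i ∧ u < RR m ∧ (s.τ a i).2 = β * RR m + u
  h3 : Ord s.τ s.k

lemma card_step (j T g : ℕ) : #{j' ∈ range (j + 1) | j' % T = g} =
    #{j' ∈ range j | j' % T = g} + if j % T = g then 1 else 0 := by
  rw [range_add_one, filter_insert]
  split_ifs
  · rw [card_insert_of_notMem (by simp)]
  · rfl

lemma inv (b j : ℕ) (ω : Fin m × Fin P × Fin Q → Fin M) : Inv b j (run b ω j) ω := by
  induction j with
  | zero => constructor <;> simp [run, Ord]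
  | succ j ih =>
    simp only [run]
    generalize run b ω j = s at ih
    rcases nx_cases s (pr b j s ω) with ⟨⟨β, d, e⟩, ⟨⟨t1, t2, t3, t4, t5, t6⟩, t7⟩, h⟩ | ⟨-, h⟩ <;>
      rw [h]
    · simp only at t1 t2 t3 t4 t5 t6 t7
      have hd := (mem_Adm.1 t4).1
      have he := (mem_Adm.1 t5).1
      have lt : ∀ {a}, a < s.k + 1 → a = s.k ∨ (a < s.k ∧ a ≠ s.k) := by omega
      refine ⟨black t4 ih.hx, fun γ => ?_, fun g => ?_, Nat.succ_le_succ ih.hk, fun a ha i => ?_,
        fun a ha i => ?_, fun a ha => ?_, fun a a' h1 h2 => ?_⟩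
      · by_cases hγ : γ = β
        · subst hγ
          simpa [upd] using black t5 (ih.hy γ)
        · simpa [upd, hγ] using ih.hy γ
      · rw [card_step]
        have := ih.hc g
        split_ifs with hg
        · have hm : β ∈ (range (3 * m * (100 * b))).filter fun β => β % (3 * m) = g := by
            simp [t1, t2, hg]
          simp only [upd]
          rw [sum_update_of_mem hm]
          rw [← add_sum_erase _ _ hm, ← sdiff_singleton_eq_erase] at this
          omega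
        · refine le_trans (le_of_eq (sum_congr rfl fun γ hγ => ?_)) this
          have : γ ≠ β := by
            rintro rfl
            exact hg (t2 ▸ (mem_filter.1 hγ).2)
          simp [upd, this]
      · rcases lt ha with rfl | ⟨h1, h2⟩
        · simpa [upd] using t7 i
        · simpa [upd, h2] using ih.ho a h1 i
      · rcases lt ha with rfl | ⟨h1, h2⟩
        · simp [upd]
        · have := ih.h1 a h1 i
          simp only [upd, Function.update_of_ne h2]
          omega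
      · rcases lt ha with rfl | ⟨h1, h2⟩
        · exact ⟨β, fun i => ⟨s.y β i + e i, by simp [upd], t6 i, by simp [upd]⟩⟩
        · obtain ⟨γ, hγ⟩ := ih.h2 a h1
          refine ⟨γ, fun i => ?_⟩
          obtain ⟨u, u1, u2, u3⟩ := hγ i
          refine ⟨u, ?_, u2, by simpa [upd, h2] using u3⟩
          by_cases hγ : γ = β
          · subst hγ
            simp only [upd, Function.update_self]
            omega
          · simpa [upd, hγ] using u1
      · rcases lt h2 with rfl | ⟨h3, h4⟩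
        · simp only [upd, Function.update_self, Function.update_of_ne h1.ne]
          refine ⟨fun i => ?_, ?_⟩
          · have := ih.h1 a h1 i
            have := hd i
            omega
          · obtain ⟨γ, hγ⟩ := ih.h2 a h1
            rcases lt_trichotomy γ β with h5 | rfl | h5
            · refine .inl fun i => ?_
              obtain ⟨u, u1, u2, u3⟩ := hγ i
              have := Nat.mul_le_mul_right (RR m) (Nat.succ_le_of_lt h5)
              rw [Nat.succ_mul] at this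
              omega
            · refine .inl fun i => ?_
              obtain ⟨u, u1, u2, u3⟩ := hγ i
              have := he i
              omega
            · refine .inr fun i => ?_
              obtain ⟨u, u1, u2, u3⟩ := hγ i
              have := Nat.mul_le_mul_right (RR m) (Nat.succ_le_of_lt h5)
              rw [Nat.succ_mul] at this
              have := t6 i
              omega
        · simp only [upd, Function.update_of_ne h4, Function.update_of_ne (h1.trans h3).ne]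
          exact ih.h3 a a' h1 h3
    · refine ⟨le_trans (le_of_eq (sum_congr rfl fun i _ => ?_))
        (ih.hx.trans (Nat.mul_le_mul_right _ (Nat.le_succ j))), ih.hy, fun g => ?_,
        ih.hk.trans (Nat.le_succ j), ih.ho, fun a ha i => (ih.h1 a ha i).trans (Nat.le_add_right _ _),
        ih.h2, ih.h3⟩
      · congr 1
        simp only [skip]
        omega
      · rw [card_step]
        exact (ih.hc g).trans (Nat.le_add_right _ _)

end Pool.Agent.H.MP_53494a_pr
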