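import Mathlib
import Pool.Agent.H.MP_53494a_pr.B

open Finset
open scoped BigOperators

namespace Pool.Agent.H.MP_53494a_pr

variable {m P Q M : ℕ} [NeZero M]

lemma avail [NeZero m] {b j : ℕ} {s : St m} {ω : Fin m × Fin P × Fin Q → Fin M} (h : Inv b j s ω)
    (hj : j ≤ 3 * m * (99 * b * rr m)) :
    b ≤ #{β ∈ range (3 * m * (100 * b)) | β % (3 * m) = j % (3 * m) ∧ s.c β < rr m} := by
  have hm := NeZero.pos m
  have hg : j % (3 * m) < 3 * m := Nat.mod_lt _ (by omega)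
  have h1 := h.hc (j % (3 * m))
  have h2 : #{j' ∈ range j | j' % (3 * m) = j % (3 * m)} ≤ 99 * b * rr m := by
    refine le_trans (card_le_card (filter_subset_filter _ (range_subset_range.2 hj))) ?_
    rw [card_mod hg]
  have h3 := card_mod hg (100 * b)
  have h4 := card_filter_add_card_filter_not (s := {β ∈ range (3 * m * (100 * b)) |
    β % (3 * m) = j % (3 * m)}) fun β => s.c β < rr m
  rw [h3, filter_filter] at h4
  have h5 := card_nsmul_le_sum {β ∈ {β ∈ range (3 * m * (100 * b)) | β % (3 * m) = j % (3 * m)} |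
    ¬ s.c β < rr m} s.c (rr m) fun x hx => not_lt.1 (mem_filter.1 hx).2
  have h6 := h5.trans ((sum_le_sum_of_subset (filter_subset _ _)).trans (h1.trans h2))
  have h7 := Nat.le_of_mul_le_mul_right h6 (by unfold rr; positivity)
  omega

open Classical in
lemma succ_prob [NeZero m] {b j N β : ℕ} {s : St m} {ω : Fin m × Fin P × Fin Q → Fin M}
    (h : Inv b j s ω) (hP : ∀ i, s.x i + 3 * m < P) (hQ : 3 * m * (100 * b) * RR m ≤ Q)
    (hN : m * N ≤ (3 * m).choose m) (hM : 2 * N ^ 2 ≤ M) (h1 : β < 3 * m * (100 * b))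
    (h2 : β % (3 * m) = j % (3 * m)) (h3 : s.c β < rr m) :
    N ^ 2 * (1 / M : ℝ) ^ m / 2 ≤ 𝔼 ω' : Fin m × Fin P × Fin Q → Fin M,
      (if ∃ d e, pr b j s ω' (β, d, e) then (1 : ℝ) else 0) := by
  have hm := NeZero.pos m
  obtain ⟨A, hA, cA⟩ := exists_subset_card_eq
    (Nat.le_of_mul_le_mul_left (hN.trans (card_Adm s.x j)) hm)
  obtain ⟨A', hA', cA'⟩ := exists_subset_card_eq
    (Nat.le_of_mul_le_mul_left (hN.trans (card_Adm (s.y β) (s.c β))) hm)
  have hy : ∀ i, s.y β i + 3 * m < RR m := by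
    intro i
    have a1 := (single_le_sum (f := fun i => (s.y β i - 3 * s.c β) ^ 2) (fun _ _ => Nat.zero_le _)
      (mem_univ i)).trans (h.hy β)
    have a2 : s.c β * (m * (3 * m) ^ 2) ≤ (300 * m ^ 3) ^ 2 := by
      refine (Nat.mul_le_mul_right _ h3.le).trans_eq ?_
      unfold rr; ring
    have a3 := (Nat.pow_le_pow_iff_left (by norm_num)).1 (a1.trans a2)
    have a4 : m ≤ m ^ 3 := Nat.le_self_pow (by norm_num) m
    unfold rr at h3
    unfold RR
    omega
  have b1 : ∀ t ∈ A ×ˢ A', ∀ i, s.x i + t.1 i < P ∧ s.y β i + t.2 i < RR m ∧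
      β * RR m + (s.y β i + t.2 i) < Q := by
    intro t ht i
    have c1 := (mem_Adm.1 (hA (mem_product.1 ht).1)).1 i
    have c2 := (mem_Adm.1 (hA' (mem_product.1 ht).2)).1 i
    have c3 := hP i
    have c4 := hy i
    have c5 := Nat.mul_le_mul_right (RR m) (Nat.succ_le_of_lt h1)
    rw [Nat.succ_mul] at c5
    omega
  let F : (Fin m → ℕ) × (Fin m → ℕ) → Finset (Fin m × Fin P × Fin Q) := fun t =>
    {z | (z.2.1 : ℕ) = s.x z.1 + t.1 z.1 ∧ (z.2.2 : ℕ) = β * RR m + (s.y β z.1 + t.2 z.1)}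
  have key := bonf (M := M) (A ×ˢ A') F m ?_ ?_ (by rw [card_product, cA, cA', ← sq]; exact hM)
  · rw [card_product, cA, cA', ← sq] at key
    push_cast at key
    refine key.trans (expect_le_expect fun ω' _ => ?_)
    split_ifs with k1 k2
    · rfl
    · obtain ⟨t, ht, k1⟩ := k1
      refine absurd ⟨t.1, t.2, ⟨h1, h2, h3, hA (mem_product.1 ht).1, hA' (mem_product.1 ht).2,
        fun i => (b1 t ht i).2.1⟩, fun i => ⟨(b1 t ht i).1, (b1 t ht i).2.2, k1 _ ?_⟩⟩ k2
      simp [F]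
    · norm_num
    · rfl
  · intro t ht
    conv_rhs => rw [← Fintype.card_fin m, ← card_univ]
    refine card_bij (fun z _ => z.1) (by simp) (fun z hz z' hz' h => ?_) fun i _ =>
      ⟨(i, ⟨_, (b1 t ht i).1⟩, ⟨_, (b1 t ht i).2.2⟩), by simp [F], rfl⟩
    simp only [F, mem_filter, mem_univ, true_and] at hz hz'
    refine Prod.ext h (Prod.ext (Fin.ext ?_) (Fin.ext ?_))
    · rw [hz.1, hz'.1, h]
    · rw [hz.2, hz'.2, h]
  · intro t ht t' _ h
    have : ∀ i, t.1 i = t'.1 i ∧ t.2 i = t'.2 i := by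
      intro i
      have : (i, (⟨_, (b1 t ht i).1⟩ : Fin P), (⟨_, (b1 t ht i).2.2⟩ : Fin Q)) ∈ F t' := by
        rw [← h]; simp [F]
      simpa [F] using this
    exact Prod.ext (funext fun i => (this i).1) (funext fun i => (this i).2)

open Classical in
lemma fail [NeZero m] {b j N : ℕ} {s : St m} {ω : Fin m × Fin P × Fin Q → Fin M}
    (h : Inv b j s ω) (hj : j ≤ 3 * m * (99 * b * rr m)) (hP : ∀ i, s.x i + 3 * m < P)
    (hQ : 3 * m * (100 * b) * RR m ≤ Q)
    (hN : m * N ≤ (3 * m).choose m) (hM : 2 * N ^ 2 ≤ M) (hb : 200 * M ^ m ≤ b * N ^ 2) :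
    𝔼 ω' : Fin m × Fin P × Fin Q → Fin M, (if ∃ t, pr b j s ω' t then (0 : ℝ) else 1) ≤ 1 / 100 := by
  set S := {β ∈ range (3 * m * (100 * b)) | β % (3 * m) = j % (3 * m) ∧ s.c β < rr m}
  let f : ℕ → (Fin m × Fin P × Fin Q → Fin M) → ℝ := fun β ω' =>
    1 - if ∃ d e, pr b j s ω' (β, d, e) then (1 : ℝ) else 0
  have f0 : ∀ β ω', 0 ≤ f β ω' := fun β ω' => by simp only [f]; split_ifs <;> norm_num
  set q : ℝ := N ^ 2 * (1 / M : ℝ) ^ m / 2 with hq
  have hM0 : (0 : ℝ) < M := by exact_mod_cast NeZero.pos M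
  have hq1 : 100 ≤ b * q := by
    have : (200 : ℝ) * M ^ m ≤ b * N ^ 2 := by exact_mod_cast hb
    rw [hq, one_div, inv_pow, ← mul_div_assoc, ← mul_assoc, ← div_eq_mul_inv,
      le_div_iff₀ (by norm_num), le_div_iff₀ (by positivity)]
    linarith
  have hq0 : 0 ≤ q := by positivity
  calc _ ≤ 𝔼 ω', ∏ β ∈ S, f β ω' := by
        refine expect_le_expect fun ω' _ => ?_
        split_ifs with k
        · exact prod_nonneg fun β _ => f0 β ω'
        · rw [prod_eq_one fun β _ => ?_]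
          simp only [f]
          rw [if_neg fun ⟨d, e, h⟩ => k ⟨_, h⟩, sub_zero]
    _ = ∏ β ∈ S, 𝔼 ω', f β ω' := by
        refine indep_prod (fun z => (z.2.2 : ℕ) / RR m) f S fun β _ ω₁ ω₂ h => ?_
        simp only [f]
        congr 2
        exact propext ⟨fun ⟨d, e, k⟩ => ⟨d, e, pr_of (fun z _ hz => (h z hz).symm) k⟩,
          fun ⟨d, e, k⟩ => ⟨d, e, pr_of (fun z _ hz => h z hz) k⟩⟩
    _ ≤ ∏ _β ∈ S, Real.exp (-q) := by
        refine prod_le_prod (fun β _ => expect_nonneg fun ω' _ => f0 β ω') fun β hβ => ?_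
        simp only [S, mem_filter, mem_range] at hβ
        have := succ_prob h hP hQ hN hM hβ.1 hβ.2.1 hβ.2.2
        simp only [f]
        rw [expect_sub_distrib, Fintype.expect_const]
        linarith [Real.add_one_le_exp (-q)]
    _ ≤ _ := by
        rw [prod_const, ← Real.exp_nat_mul, mul_neg, Real.exp_neg, inv_le_comm₀ (Real.exp_pos _)
          (by norm_num)]
        have h1 : (b : ℝ) ≤ #S := by exact_mod_cast avail h hj
        have := Real.add_one_le_exp (#S * q)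
        norm_num
        nlinarith

lemma exp_k [NeZero m] {b N : ℕ}
    (hP : ∀ j ≤ 3 * m * (99 * b * rr m), ∀ u, u ^ 2 ≤ j * (m * (3 * m) ^ 2) → 3 * j + u + 3 * m < P)
    (hQ : 3 * m * (100 * b) * RR m ≤ Q)
    (hN : m * N ≤ (3 * m).choose m) (hM : 2 * N ^ 2 ≤ M) (hb : 200 * M ^ m ≤ b * N ^ 2)
    (j : ℕ) (hj : j ≤ 3 * m * (99 * b * rr m)) :
    0.99 * (j : ℝ) ≤ 𝔼 ω : Fin m × Fin P × Fin Q → Fin M, ((run b ω j).k : ℝ) := by
  classical
  induction j with
  | zero => simp [run]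
  | succ j ih =>
    have e : ∀ ω : Fin m × Fin P × Fin Q → Fin M, ((run b ω (j + 1)).k : ℝ) = (run b ω j).k + 1 -
        (if ∃ t, pr b j (run b ω j) ω t then (0 : ℝ) else 1) := by
      intro ω
      simp only [run]
      rcases nx_cases (run b ω j) (pr b j (run b ω j) ω) with ⟨t, ht, h⟩ | ⟨ht, h⟩ <;> rw [h]
      · rw [if_pos ⟨t, ht⟩]; simp [upd]
      · rw [if_neg ht]; simp [skip]
    simp only [e]
    rw [expect_sub_distrib, expect_add_distrib, Fintype.expect_const,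
      stop (fun ω => run b ω j) (Dm j) (det b j)
        (fun s ω => if ∃ t, pr b j s ω t then (0 : ℝ) else 1)
        fun ω ω₁ ω₂ h => by simp only [pr_eq fun z hz => h z (disj hz)]]
    have h1 := ih (by omega)
    have h2 : 𝔼 ω : Fin m × Fin P × Fin Q → Fin M, 𝔼 ω' : Fin m × Fin P × Fin Q → Fin M,
        (if ∃ t, pr b j (run b ω j) ω' t then (0 : ℝ) else 1) ≤ 1 / 100 := by
      refine expect_le univ_nonempty fun ω _ => fail (inv b j ω) (by omega) (fun i => ?_) hQ hN hM hb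
      have := hP j (by omega) _ ((single_le_sum (f := fun i => ((run b ω j).x i - 3 * j) ^ 2)
        (fun _ _ => Nat.zero_le _) (mem_univ i)).trans (inv b j ω).hx)
      omega
    push_cast
    linarith

end Pool.Agent.H.MP_53494a_pr
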