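import Mathlib
import Pool.Agent.H.MP_53494a_pr.C

open Finset Equiv
open scoped BigOperators

namespace Pool.Agent.H.MP_53494a_pr

variable {m P Q : ℕ}

def Pat (S : Fin m → Finset (Fin P × Fin Q)) (k : ℕ) : Prop :=
  ∃ τ : ℕ → Fin m → ℕ × ℕ, (∀ a < k, ∀ i, ∃ z ∈ S i, ((z.1 : ℕ), (z.2 : ℕ)) = τ a i) ∧ Ord τ k

open Classical in
noncomputable def FF (J : ℕ) (S : Fin m → Finset (Fin P × Fin Q)) : ℝ :=
  (Nat.findGreatest (Pat S) J : ℕ)

lemma FF_mono (J : ℕ) {S S' : Fin m → Finset (Fin P × Fin Q)} (h : ∀ i, S i ⊆ S' i) :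
    FF J S ≤ FF J S' := by
  classical
  unfold FF
  refine Nat.cast_le.2 (Nat.findGreatest_mono_left (fun k ⟨τ, h1, h2⟩ => ⟨τ, fun a ha i => ?_, h2⟩) J)
  obtain ⟨z, hz, e⟩ := h1 a ha i
  exact ⟨z, h i hz, e⟩

lemma FF_le (J : ℕ) (S : Fin m → Finset (Fin P × Fin Q)) : FF J S ≤ J :=
  Nat.cast_le.2 (@Nat.findGreatest_le _ (_) J)

noncomputable def psi (J : ℕ) (S : Fin m → Finset (Fin P × Fin Q)) : ℝ :=
  𝔼 π : Fin m → Perm (Fin P × Fin Q), FF J fun i => (S i).image (π i)

lemma psi_nonneg (J : ℕ) (S : Fin m → Finset (Fin P × Fin Q)) : 0 ≤ psi J S :=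
  expect_nonneg fun _ _ => Nat.cast_nonneg _

lemma psi_le (J : ℕ) (S : Fin m → Finset (Fin P × Fin Q)) : psi J S ≤ J :=
  expect_le univ_nonempty fun _ _ => FF_le _ _

lemma psi_mono (J : ℕ) {S S' : Fin m → Finset (Fin P × Fin Q)} (h : ∀ i, #(S i) ≤ #(S' i)) :
    psi J S ≤ psi J S' := by
  have : ∀ i, ∃ ρ : Perm (Fin P × Fin Q), (S i).image ρ ⊆ S' i := by
    intro i
    obtain ⟨f⟩ := Function.Embedding.nonempty_of_card_le (α := S i) (β := S' i) (by simpa using h i)
    obtain ⟨ρ, hρ⟩ := Perm.exists_extending_pair (f := fun x : S i => x.1)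
      (g := fun x => (f x).1) Subtype.val_injective (Subtype.val_injective.comp f.injective)
    refine ⟨ρ, image_subset_iff.2 fun x hx => ?_⟩
    rw [hρ ⟨x, hx⟩]
    exact (f _).2
  choose ρ hρ using this
  unfold psi
  rw [← Fintype.expect_equiv (Equiv.mulRight ρ)
    (fun π => FF J fun i => ((S i).image (ρ i)).image (π i)) _
    fun π => by simp [image_image]]
  exact expect_le_expect fun π _ => FF_mono J fun i => image_subset_image (hρ i)

lemma sym (J : ℕ) {X : Type} [Fintype X] (S : X → Fin m → Finset (Fin P × Fin Q))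
    (h : ∀ π : Fin m → Perm (Fin P × Fin Q), ∃ e : X → X, Function.Injective e ∧
      ∀ x i, S (e x) i = (S x i).image (π i)) :
    𝔼 x, FF J (S x) = 𝔼 x, psi J (S x) := by
  unfold psi
  rw [expect_comm, ← Fintype.expect_const (ι := Fin m → Perm (Fin P × Fin Q)) (𝔼 x, FF J (S x))]
  refine expect_congr rfl fun π _ => ?_
  obtain ⟨e, h1, h2⟩ := h π
  exact (Fintype.expect_bijective e (Finite.injective_iff_bijective.1 h1) _ _ fun x => by
    rw [funext (h2 x)]).symm

lemma compare (J k : ℕ) (S S' : Fin m → Finset (Fin P × Fin Q)) :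
    psi J S ≤ psi J S' + J * (∑ i, if k < #(S i) then (1 : ℝ) else 0)
      + J * ∑ i, if #(S' i) < k then (1 : ℝ) else 0 := by
  have a : ∀ (p : Fin m → Prop) [DecidablePred p], 0 ≤ ∑ i, if p i then (1 : ℝ) else 0 :=
    fun p _ => sum_nonneg fun i _ => by split_ifs <;> norm_num
  have b : ∀ (p : Fin m → Prop) [DecidablePred p] i, p i → 1 ≤ ∑ i, if p i then (1 : ℝ) else 0 :=
    fun p _ i hi => le_trans (by rw [if_pos hi]) (single_le_sum
      (f := fun i => if p i then (1 : ℝ) else 0) (fun i _ => by split_ifs <;> norm_num) (mem_univ i))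
  have a1 := a fun i => k < #(S i)
  have a2 := a fun i => #(S' i) < k
  have hJ : (0 : ℝ) ≤ J := Nat.cast_nonneg J
  have := psi_le J S
  have := psi_nonneg J S'
  by_cases h : ∀ i, #(S i) ≤ #(S' i)
  · have := psi_mono J h
    nlinarith [mul_nonneg hJ a1, mul_nonneg hJ a2]
  · obtain ⟨i, hi⟩ := not_forall.1 h
    rcases (by omega : k < #(S i) ∨ #(S' i) < k) with h | h
    · nlinarith [b (fun i => k < #(S i)) i h, mul_nonneg hJ a2]
    · nlinarith [b (fun i => #(S' i) < k) i h, mul_nonneg hJ a1]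

def SB {M : ℕ} [NeZero M] (ω : Fin m × Fin P × Fin Q → Fin M) (i : Fin m) :
    Finset (Fin P × Fin Q) := {z | ω (i, z) = 0}

def SI {n : ℕ} (z : Fin m × Fin n → Fin P × Fin Q) (i : Fin m) : Finset (Fin P × Fin Q) :=
  univ.image fun s => z (i, s)

lemma tail_a {M ν : ℕ} [NeZero M] (hD : P * Q = 100 * ν * M) (hν : 0 < ν) (i : Fin m) :
    𝔼 ω : Fin m × Fin P × Fin Q → Fin M, (if 103 * ν < #(SB ω i) then (1 : ℝ) else 0) ≤ 52 / ν := by
  have hM0 : (0 : ℝ) < M := by exact_mod_cast NeZero.pos M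
  have hν0 : (0 : ℝ) < ν := by exact_mod_cast hν
  have h := exp_prod (I := Fin m × Fin P × Fin Q) (V := Fin M)
    fun z v => if z.1 = i then if v = 0 then (1.02 : ℝ) else 1 else 1
  have e : ∀ z : Fin m × Fin P × Fin Q, (𝔼 v : Fin M, if z.1 = i then if v = 0 then (1.02 : ℝ) else 1
      else 1) = if z.1 = i then (1 + 0.02 / M : ℝ) else 1 := by
    intro z
    split_ifs
    · have : ∀ v : Fin M, (if v = 0 then (1.02 : ℝ) else 1) = 1 + if v = 0 then 0.02 else 0 := by
        intro v; split_ifs <;> norm_num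
      simp only [this, expect_add_distrib, Fintype.expect_const]
      rw [Fintype.expect_eq_sum_div_card]
      simp
    · simp
  have e2 : ∀ g : Fin m × Fin P × Fin Q → ℝ,
      ∏ z : Fin m × Fin P × Fin Q, (if z.1 = i then g z else 1) = ∏ z, g (i, z) := by
    intro g
    rw [Fintype.prod_prod_type, prod_comm]
    simp
  simp only [e, e2, prod_const, card_univ, Fintype.card_prod, Fintype.card_fin, hD] at h
  calc _ ≤ 𝔼 ω : Fin m × Fin P × Fin Q → Fin M,
        (∏ z, if ω (i, z) = 0 then (1.02 : ℝ) else 1) / 1.02 ^ (103 * ν) := by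
        refine expect_le_expect fun ω _ => ?_
        rw [prod_ite, prod_const, prod_const_one, mul_one]
        split_ifs with k
        · rw [le_div_iff₀ (by positivity), one_mul]
          exact pow_le_pow_right₀ (by norm_num) k.le
        · positivity
    _ = _ := by rw [← expect_div, h]
    _ ≤ Real.exp (0.02 / M) ^ (100 * ν * M) / Real.exp (0.02 / 1.02) ^ (103 * ν) := by
        gcongr
        · linarith [Real.add_one_le_exp (0.02 / M)]
        · have := Real.add_one_le_exp (-(0.02 / 1.02))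
          rw [Real.exp_neg, le_inv_comm₀ (by norm_num) (Real.exp_pos _)] at this
          refine this.trans_eq (by norm_num)
    _ = (Real.exp (ν / 51))⁻¹ := by
        rw [← Real.exp_nat_mul, ← Real.exp_nat_mul, ← Real.exp_sub, ← Real.exp_neg]
        congr 1
        push_cast
        field_simp
        norm_num
    _ ≤ _ := by
        rw [inv_le_comm₀ (Real.exp_pos _) (by positivity), inv_div]
        linarith [Real.add_one_le_exp (ν / 51)]

lemma tail_b {M ν : ℕ} [NeZero M] (hD : P * Q = 100 * ν * M) (hν : 0 < ν) (i : Fin m) :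
    𝔼 z : Fin m × Fin (105 * ν) → Fin P × Fin Q, (if #(SI z i) < 103 * ν then (1 : ℝ) else 0)
      ≤ 56 / M := by
  have hM0 : (0 : ℝ) < M := by exact_mod_cast NeZero.pos M
  have hM1 : (1 : ℝ) ≤ M := by exact_mod_cast NeZero.pos M
  have hν0 : (1 : ℝ) ≤ ν := by exact_mod_cast hν
  have hPQ : 0 < P * Q := by rw [hD]; have := NeZero.pos M; positivity
  have : Nonempty (Fin P × Fin Q) := ⟨(⟨0, Nat.pos_of_mul_pos_right hPQ⟩, ⟨0, Nat.pos_of_mul_pos_left hPQ⟩)⟩
  set D : ℝ := 100 * ν * M with hD'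
  have hD0 : 1 ≤ D := by nlinarith
  have cD : (Fintype.card (Fin P × Fin Q) : ℝ) = D := by
    simp only [Fintype.card_prod, Fintype.card_fin, hD]; push_cast; rfl
  have h1 : ∀ c : Fin P × Fin Q, 𝔼 z : Fin m × Fin (105 * ν) → Fin P × Fin Q,
      (if c ∈ SI z i then (0 : ℝ) else 1) = (1 - 1 / D) ^ (105 * ν) := by
    intro c
    have h := exp_prod (I := Fin m × Fin (105 * ν)) (V := Fin P × Fin Q)
      fun p v => if p.1 = i then if v = c then (0 : ℝ) else 1 else 1
    have e : ∀ p : Fin m × Fin (105 * ν), (𝔼 v : Fin P × Fin Q,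
        if p.1 = i then if v = c then (0 : ℝ) else 1 else 1) = if p.1 = i then (1 - 1 / D) else 1 := by
      intro z
      split_ifs
      · have : ∀ v : Fin P × Fin Q, (if v = c then (0 : ℝ) else 1) = 1 - if v = c then 1 else 0 := by
          intro v; split_ifs <;> norm_num
        simp only [this, expect_sub_distrib, Fintype.expect_const]
        rw [Fintype.expect_eq_sum_div_card, cD]
        simp
      · simp
    have e2 : ∀ g : Fin m × Fin (105 * ν) → ℝ,
        ∏ z : Fin m × Fin (105 * ν), (if z.1 = i then g z else 1) = ∏ z, g (i, z) := by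
      intro g
      rw [Fintype.prod_prod_type, prod_comm]
      simp
    simp only [e, e2, prod_const, card_univ, Fintype.card_fin] at h
    rw [← h]
    refine expect_congr rfl fun z _ => ?_
    split_ifs with k
    · obtain ⟨s, -, hs⟩ := mem_image.1 k
      symm
      exact prod_eq_zero (mem_univ s) (if_pos hs)
    · exact (prod_eq_one fun s _ => if_neg fun hs => k (mem_image.2 ⟨s, mem_univ _, hs⟩)).symm
  have h2 : (1 - 1 / D) ^ (105 * ν) ≤ 1 - 105 * ν / D + (105 * ν / D) ^ 2 := by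
    have a0 : 0 ≤ 1 - 1 / D := by rw [sub_nonneg, div_le_one (by linarith)]; exact hD0
    have a1 : (1 - 1 / D) ^ (105 * ν) ≤ Real.exp (-(1 / D)) ^ (105 * ν) := by
      gcongr; linarith [Real.add_one_le_exp (-(1 / D))]
    rw [← Real.exp_nat_mul, mul_neg, mul_one_div, Real.exp_neg] at a1
    push_cast at a1
    have hy : 0 ≤ 105 * ν / D := by positivity
    generalize 105 * ν / D = y at *
    refine a1.trans ?_
    have := Real.add_one_le_exp y
    rw [inv_le_iff_one_le_mul₀ (Real.exp_pos _)]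
    have : 0 ≤ 1 - y + y ^ 2 := by nlinarith
    nlinarith [pow_nonneg hy 3]
  calc _ ≤ 𝔼 z : Fin m × Fin (105 * ν) → Fin P × Fin Q,
        (105 * ν - D + ∑ c, if c ∈ SI z i then (0 : ℝ) else 1) / (2 * ν) := by
        refine expect_le_expect fun z _ => ?_
        have a : (∑ c, if c ∈ SI z i then (0 : ℝ) else 1) = D - #(SI z i) := by
          have : ∀ c, (if c ∈ SI z i then (0 : ℝ) else 1) = 1 - if c ∈ SI z i then 1 else 0 := by
            intro v; split_ifs <;> norm_num
          simp only [this, sum_sub_distrib, sum_const, card_univ, nsmul_eq_mul, cD]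
          simp
        have b : (#(SI z i) : ℝ) ≤ 105 * ν := by
          have : #(SI z i) ≤ 105 * ν := card_image_le.trans (by simp)
          exact_mod_cast this
        rw [a, le_div_iff₀ (by positivity)]
        split_ifs with k
        · have : (#(SI z i) : ℝ) < 103 * ν := by exact_mod_cast k
          linarith
        · linarith
    _ = (105 * ν - D + D * (1 - 1 / D) ^ (105 * ν)) / (2 * ν) := by
        rw [← expect_div, expect_add_distrib, Fintype.expect_const, expect_sum_comm]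
        simp only [h1, sum_const, card_univ, nsmul_eq_mul, cD]
    _ ≤ (105 * ν - D + D * (1 - 105 * ν / D + (105 * ν / D) ^ 2)) / (2 * ν) := by gcongr
    _ ≤ _ := by
        rw [hD']
        field_simp
        nlinarith

noncomputable def LL {n : ℕ} (π : Fin m → Perm (Fin n)) : ℕ :=
  sSup {k : ℕ | ∃ σ : Equiv.Perm (Fin k), ∀ i : Fin m, ∃ e : Fin k ↪o Fin n,
    ∀ a b : Fin k, σ a < σ b ↔ π i (e a) < π i (e b)}

lemma patL [NeZero m] {n k : ℕ} (π : Fin m → Perm (Fin n)) (u : Fin m → Fin n → Fin P)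
    (v : Fin m → Fin n → Fin Q) (hu : ∀ i, Monotone (u i)) (hv : ∀ i, Monotone (v i))
    (h : Pat (fun i => univ.image fun s => (u i s, v i (π i s))) k) : k ≤ LL π := by
  obtain ⟨τ, h1, h2⟩ := h
  have h3 : ∀ (i) (a : Fin k), ∃ s, ((u i s : ℕ), (v i (π i s) : ℕ)) = τ a i := by
    intro i a
    obtain ⟨z, hz, e⟩ := h1 a a.2 i
    obtain ⟨s, -, rfl⟩ := mem_image.1 hz
    exact ⟨s, e⟩
  choose e he using h3
  have hm : ∀ i, StrictMono (e i) := fun i a b hab => (hu i).reflect_lt (by
    have := (h2 a b hab b.2).1 i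
    rw [← he, ← he] at this
    exact this)
  have h4 : ∀ a b : Fin k, (∀ i, (τ a i).2 < (τ b i).2) → ∀ i, π i (e i a) < π i (e i b) :=
    fun a b h i => (hv i).reflect_lt (by
      have := h i
      rw [← he, ← he] at this
      exact this)
  have h5 : ∀ i (a b : Fin k), π 0 (e 0 a) < π 0 (e 0 b) ↔ π i (e i a) < π i (e i b) := by
    have : ∀ a b : Fin k, a = b ∨ (∀ i, π i (e i a) < π i (e i b)) ∨ ∀ i, π i (e i b) < π i (e i a) := by
      intro a b
      rcases lt_trichotomy a b with h | h | h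
      · exact .inr ((h2 a b h b.2).2.imp (h4 a b) (h4 b a))
      · exact .inl h
      · exact .inr ((h2 b a h a.2).2.symm.imp (h4 a b) (h4 b a))
    intro i a b
    rcases this a b with rfl | h | h
    · simp
    · simp [h]
    · simp [(h _).not_gt]
  refine le_csSup ⟨n, fun l ⟨_, h⟩ => ?_⟩ ⟨(Tuple.sort fun a => π 0 (e 0 a))⁻¹, fun i =>
    ⟨OrderEmbedding.ofStrictMono _ (hm i), fun a b => ?_⟩⟩
  · obtain ⟨f, -⟩ := h 0
    simpa using Fintype.card_le_of_embedding f.toEmbedding
  · have hs := (Tuple.monotone_sort fun a => π 0 (e 0 a)).strictMono_of_injective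
      (((π 0).injective.comp (hm 0).injective).comp (Equiv.injective _))
    rw [← hs.lt_iff_lt]
    simpa using h5 i a b

lemma iid_le [NeZero m] {n : ℕ} (J : ℕ) [Nonempty (Fin P × Fin Q)] :
    𝔼 z : Fin m × Fin n → Fin P × Fin Q, FF J (SI z) ≤ 𝔼 π : Fin m → Perm (Fin n), (LL π : ℝ) := by
  classical
  let e : (Fin m → Perm (Fin n)) → (Fin m × Fin n → Fin P × Fin Q) → Fin m × Fin n → Fin P × Fin Q :=
    fun ρ z p => ((z p).1, (z (p.1, ρ p.1 p.2)).2)
  have he : ∀ ρ, Function.Injective (e ρ) := by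
    intro ρ z z' h
    funext ⟨i, s⟩
    refine Prod.ext (by simpa [e] using congrArg Prod.fst (congrFun h (i, s))) ?_
    simpa [e] using congrArg Prod.snd (congrFun h (i, (ρ i).symm s))
  calc _ = 𝔼 ρ, 𝔼 z, FF J (SI (e ρ z)) := by
        rw [← Fintype.expect_const (ι := Fin m → Perm (Fin n)) (𝔼 z, FF J (SI z))]
        exact expect_congr rfl fun ρ _ => (Fintype.expect_bijective (e ρ)
          (Finite.injective_iff_bijective.1 (he ρ)) _ _ fun _ => rfl).symm
    _ ≤ _ := by
        rw [expect_comm]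
        refine expect_le univ_nonempty fun z _ => ?_
        let α : Fin m → Perm (Fin n) := fun i => Tuple.sort fun s => (z (i, s)).1
        let β : Fin m → Perm (Fin n) := fun i => Tuple.sort fun s => (z (i, s)).2
        rw [← Fintype.expect_equiv ((Equiv.mulLeft β).trans (Equiv.mulRight α⁻¹))
          (fun π => FF J (SI (e (β * π * α⁻¹) z))) _ fun _ => rfl]
        refine expect_le_expect fun π _ => Nat.cast_le.2 ?_
        rcases Nat.eq_zero_or_pos (Nat.findGreatest (Pat (SI (e (β * π * α⁻¹) z))) J) with h | h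
        · exact h.trans_le (Nat.zero_le _)
        refine patL π (fun i s => (z (i, α i s)).1) (fun i s => (z (i, β i s)).2)
          (fun i => Tuple.monotone_sort fun s => (z (i, s)).1)
          (fun i => Tuple.monotone_sort fun s => (z (i, s)).2) ?_
        convert Nat.findGreatest_of_ne_zero rfl h.ne' with i
        ext c
        simp only [SI, e, mem_image, mem_univ, true_and]
        exact ⟨fun ⟨s, hs⟩ => ⟨α i s, by simpa using hs⟩,
          fun ⟨s, hs⟩ => ⟨(α i).symm s, by simpa using hs⟩⟩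

lemma main [NeZero m] {M b N ν : ℕ} [NeZero M]
    (hP : ∀ j ≤ 3 * m * (99 * b * rr m), ∀ u, u ^ 2 ≤ j * (m * (3 * m) ^ 2) → 3 * j + u + 3 * m < P)
    (hQ : 3 * m * (100 * b) * RR m ≤ Q)
    (hN : m * N ≤ (3 * m).choose m) (hM : 2 * N ^ 2 ≤ M) (hb : 200 * M ^ m ≤ b * N ^ 2)
    (hD : P * Q = 100 * ν * M) (hν : 0 < ν) :
    (0.99 - m * (52 / ν) - m * (56 / M) : ℝ) * (3 * m * (99 * b * rr m) : ℕ) ≤
      𝔼 π : Fin m → Perm (Fin (105 * ν)), (LL π : ℝ) := by
  classical
  have hPQ : 0 < P * Q := by rw [hD]; have := NeZero.pos M; positivity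
  have : Nonempty (Fin P × Fin Q) := ⟨(⟨0, Nat.pos_of_mul_pos_right hPQ⟩, ⟨0, Nat.pos_of_mul_pos_left hPQ⟩)⟩
  have h1 := exp_k (M := M) hP hQ hN hM hb _ le_rfl
  generalize 3 * m * (99 * b * rr m) = J at h1
  have h2 : 𝔼 ω : Fin m × Fin P × Fin Q → Fin M, ((run b ω J).k : ℝ) ≤
      𝔼 ω : Fin m × Fin P × Fin Q → Fin M, FF J (SB ω) := by
    refine expect_le_expect fun ω _ => Nat.cast_le.2 (Nat.le_findGreatest (inv b J ω).hk
      ⟨_, fun a ha i => ?_, (inv b J ω).h3⟩)
    obtain ⟨x, y, h⟩ := (inv b J ω).ho a ha i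
    exact ⟨(⟨_, x⟩, ⟨_, y⟩), by simpa [SB] using h, rfl⟩
  rw [sym J SB fun π => ⟨fun ω p => ω (p.1, (π p.1).symm p.2), fun ω ω' h => funext fun p => by
    simpa using congrFun h (p.1, π p.1 p.2), fun ω i => by
      ext c
      simp only [SB, mem_filter, mem_univ, true_and, mem_image]
      exact ⟨fun h => ⟨_, h, by simp⟩, fun ⟨a, h, k⟩ => by simpa [← k] using h⟩⟩] at h2
  have h3 := iid_le (m := m) (P := P) (Q := Q) (n := 105 * ν) J
  rw [sym J SI fun π => ⟨fun z p => π p.1 (z p), fun z z' h => funext fun p =>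
    (π p.1).injective (congrFun h p), fun z i => by simp [SI, image_image]; rfl⟩] at h3
  have hJ : (0 : ℝ) ≤ J := Nat.cast_nonneg J
  have h4 : 𝔼 ω : Fin m × Fin P × Fin Q → Fin M, psi J (SB ω) ≤
      (𝔼 z : Fin m × Fin (105 * ν) → Fin P × Fin Q, psi J (SI z)) + J * (m * (52 / ν))
        + J * (m * (56 / M)) := by
    calc _ = 𝔼 ω : Fin m × Fin P × Fin Q → Fin M, 𝔼 _z : Fin m × Fin (105 * ν) → Fin P × Fin Q,
            psi J (SB ω) := by simp
      _ ≤ _ := expect_le_expect fun ω _ => expect_le_expect fun z _ =>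
          compare J (103 * ν) (SB ω) (SI z)
      _ ≤ _ := by
          simp only [expect_add_distrib, Fintype.expect_const, ← mul_expect, expect_sum_comm]
          gcongr
          · exact (sum_le_sum fun i _ => tail_a hD hν i).trans_eq (by simp)
          · exact (sum_le_sum fun i _ => tail_b hD hν i).trans_eq (by simp)
  linarith

end Pool.Agent.H.MP_53494a_pr
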