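import Mathlib
import Pool.Agent.H.MP_53494a_pr.D

open Finset Equiv Filter
open scoped BigOperators

namespace Pool.Agent.H.MP_53494a_pr

lemma choose_ge (m : ℕ) : (6.75 : ℝ) ^ m ≤ (3 * m + 1) * (3 * m).choose m := by
  induction m with
  | zero => simp
  | succ m ih =>
    have h1 := Nat.add_one_mul_choose_eq (3 * m + 2) m
    have h2 := Nat.choose_mul_succ_eq (3 * m + 1) m
    have h3 := Nat.choose_mul_succ_eq (3 * m) m
    rw [show 3 * m + 1 + 1 - m = 2 * m + 2 by omega] at h2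
    rw [show 3 * m + 1 - m = 2 * m + 1 by omega] at h3
    rw [show 3 * (m + 1) = 3 * m + 2 + 1 by ring, pow_succ]
    have a1 : ((3 * m + 2 + 1 : ℝ)) * (3 * m + 2).choose m = (3 * m + 2 + 1).choose (m + 1) * (m + 1) := by
      exact_mod_cast h1
    have a2 : ((3 * m + 1).choose m : ℝ) * (3 * m + 1 + 1) = (3 * m + 2).choose m * (2 * m + 2) := by
      exact_mod_cast h2
    have a3 : ((3 * m).choose m : ℝ) * (3 * m + 1) = (3 * m + 1).choose m * (2 * m + 1) := by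
      exact_mod_cast h3
    have hm : (0 : ℝ) ≤ m := Nat.cast_nonneg m
    have b1 : (((3 * m + 2 + 1).choose (m + 1) : ℕ) : ℝ) = 3 * (3 * m + 2).choose m := by
      refine mul_right_cancel₀ (b := (m + 1 : ℝ)) (by positivity) ?_
      linarith
    rw [b1]
    push_cast
    have hx : (0 : ℝ) ≤ (3 * m + 1).choose m := Nat.cast_nonneg _
    generalize (((3 * m + 2).choose m : ℕ) : ℝ) = z at *
    generalize (((3 * m + 1).choose m : ℕ) : ℝ) = y at *
    generalize (((3 * m).choose m : ℕ) : ℝ) = x at *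
    refine le_of_mul_le_mul_right (a := (2 * m + 2 : ℝ)) ?_ (by positivity)
    calc (6.75 : ℝ) ^ m * 6.75 * (2 * m + 2) ≤ y * (2 * m + 1) * 6.75 * (2 * m + 2) := by
          gcongr; linarith
      _ ≤ y * ((3 * (m + 1) + 1) * 3 * (3 * m + 1 + 1)) := by
          rw [mul_assoc, mul_assoc]
          exact mul_le_mul_of_nonneg_left (by nlinarith) hx
      _ = _ := by linear_combination ((3 * (m + 1) + 1) * 3) * a2

lemma big : ∀ᶠ m : ℕ in atTop, ∃ N : ℕ, m * N ≤ (3 * m).choose m ∧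
    594000000 * (m : ℝ) ^ 4 * 42.83 ^ m ≤ N ^ 2 := by
  have h := (tendsto_pow_const_div_const_pow_of_one_lt 8 (r := 1.06) (by norm_num)).eventually
    (gt_mem_nhds (by norm_num : (0 : ℝ) < 1 / 40000000000))
  filter_upwards [h, eventually_ge_atTop 1] with m h hm
  refine ⟨(3 * m).choose m / m, Nat.mul_div_le _ _, ?_⟩
  have h1 : m ≤ (3 * m).choose m := by
    have := Nat.choose_le_choose m (by omega : m + 1 ≤ 3 * m)
    rw [Nat.choose_succ_self_right] at this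
    omega
  have h2 := Nat.div_pos h1 hm
  have h3 := Nat.lt_mul_div_succ ((3 * m).choose m) hm
  have h4 := choose_ge m
  generalize (3 * m).choose m / m = N at *
  have h5 : (3 * m).choose m ≤ 2 * m * N := by nlinarith
  have h6 : (((3 * m).choose m : ℕ) : ℝ) ≤ 2 * m * N := by exact_mod_cast h5
  have hm' : (1 : ℝ) ≤ m := by exact_mod_cast hm
  have h7 : (6.75 : ℝ) ^ m ≤ 8 * m ^ 2 * N := by
    calc _ ≤ (4 * m : ℝ) * (2 * m * N) := h4.trans (by gcongr; linarith)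
      _ = _ := by ring
  have h8 : (1.06 : ℝ) ^ m * 42.83 ^ m ≤ (8 * m ^ 2 * N) ^ 2 := by
    calc _ ≤ ((6.75 : ℝ) ^ m) ^ 2 := by
          rw [← mul_pow, ← pow_mul, mul_comm m 2, pow_mul]
          gcongr; norm_num
      _ ≤ _ := by gcongr
  rw [div_lt_iff₀ (by positivity)] at h
  refine le_of_mul_le_mul_left (a := 64 * (m : ℝ) ^ 4) ?_ (by positivity)
  have h9 : (0 : ℝ) < 42.83 ^ m := by positivity
  have : (0 : ℝ) < m ^ 8 := by positivity
  nlinarith [mul_le_mul_of_nonneg_right h.le h9.le, mul_pos this h9]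

lemma final {m N : ℕ} (hm : 2 ≤ m) (hN : m * N ≤ (3 * m).choose m)
    (h : 594000000 * (m : ℝ) ^ 4 * 42.83 ^ m ≤ N ^ 2) (n0 : ℕ) : ∃ n ≥ n0,
    2.05 ≤ (∑ π : Fin m → Perm (Fin n), (LL π : ℝ)) / (n.factorial : ℝ) ^ m
      / (n : ℝ) ^ ((m : ℝ) / (2 * (m : ℝ) - 1)) := by
  obtain ⟨l, rfl⟩ : ∃ l, m = l + 2 := ⟨m - 2, by omega⟩
  set m := l + 2 with hl
  have : NeZero m := ⟨by omega⟩
  have hN0 : 0 < N := by
    rcases Nat.eq_zero_or_pos N with rfl | h0
    · exact absurd h (not_le.2 (by simp only [Nat.cast_zero]; norm_num; positivity))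
    · exact h0
  obtain ⟨w, hw1, hw2⟩ : ∃ w, n0 ≤ w ∧ 11200 * m ≤ w := ⟨_, le_max_left _ _, le_max_right _ _⟩
  have hw : 0 < w := by omega
  obtain ⟨M, hM⟩ : ∃ M, M = N ^ 2 * w := ⟨_, rfl⟩
  have hMw : w ≤ M := hM ▸ Nat.le_mul_of_pos_left _ (by positivity)
  have hM0 : 0 < M := by omega
  have : NeZero M := ⟨by omega⟩
  obtain ⟨b, hb⟩ : ∃ b, b = 200 * M ^ (l + 1) * w := ⟨_, rfl⟩
  have hb0 : 0 < b := by rw [hb]; positivity
  obtain ⟨J, hJ⟩ : ∃ J, J = 29700 * m ^ 4 * b := ⟨_, rfl⟩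
  have hJ1 : 3 * m * (99 * b * rr m) = 100 * J := by rw [hJ, rr]; ring
  have hJ2 : 29700 * m ^ 3 ≤ J := by
    rw [hJ]
    exact (Nat.mul_le_mul_left _ (Nat.pow_le_pow_right (by omega) (by norm_num))).trans
      (Nat.le_mul_of_pos_right _ hb0)
  have hm3 : m ≤ m ^ 3 := Nat.le_self_pow (by norm_num) m
  obtain ⟨ν, hν⟩ : ∃ ν, ν = 301 * J * (3 * m) * RR m * 200 * M ^ l * w := ⟨_, rfl⟩
  have hνw : w ≤ ν := hν ▸ Nat.le_mul_of_pos_left _ (by
    have : 0 < J := by omega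
    unfold RR; positivity)
  have hbN : 200 * M ^ m = b * N ^ 2 := by
    rw [hb, hl, pow_succ M (l + 1)]
    nth_rewrite 2 [hM]
    ring
  have hD : 301 * J * (3 * m * (100 * b) * RR m) = 100 * ν * M := by rw [hν, hb]; ring
  have key := main (m := m) (P := 301 * J) (M := M) (b := b) (N := N) (ν := ν) (fun j hj u hu => by
    have : (2 * u) ^ 2 ≤ J ^ 2 := by
      rw [hJ1] at hj
      calc (2 * u) ^ 2 = 4 * u ^ 2 := by ring
        _ ≤ 4 * (100 * J * (m * (3 * m) ^ 2)) := by gcongr; exact hu.trans (by gcongr)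
        _ = J * (3600 * m ^ 3) := by ring
        _ ≤ J * J := by gcongr; omega
        _ = _ := by ring
    have := (Nat.pow_le_pow_iff_left (by norm_num)).1 this
    omega) le_rfl hN (by rw [hM]; nlinarith) hbN.le hD (by omega)
  refine ⟨105 * ν, by omega, ?_⟩
  rw [Fintype.expect_eq_sum_div_card, hJ1] at key
  simp only [Fintype.card_fun, Fintype.card_perm, Fintype.card_fin, Nat.cast_pow] at key
  have r1 : (11200 : ℝ) * m ≤ ν := by exact_mod_cast hw2.trans hνw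
  have r2 : (11200 : ℝ) * m ≤ M := by exact_mod_cast hw2.trans hMw
  have r0 : (2 : ℝ) ≤ m := by exact_mod_cast hm
  have hν0 : (0 : ℝ) < ν := by linarith
  have hM1 : (0 : ℝ) < M := by linarith
  have r3 : (m : ℝ) * (52 / ν) ≤ 0.005 := by
    rw [← mul_div_assoc, div_le_iff₀ hν0]; linarith
  have r4 : (m : ℝ) * (56 / M) ≤ 0.005 := by
    rw [← mul_div_assoc, div_le_iff₀ hM1]; linarith
  have hJ0 : (0 : ℝ) < J := by exact_mod_cast (by omega : 0 < J)
  have hn0 : (0 : ℝ) < ((105 * ν : ℕ) : ℝ) := by push_cast; positivity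
  rw [le_div_iff₀ (Real.rpow_pos_of_pos hn0 _)]
  refine le_trans ?_ key
  have e1 : ((105 * ν : ℕ) : ℝ) * M ≤ 9.71 * (100 * J) ^ 2 := by
    have a : (301 : ℝ) * J * (3 * m * (100 * b) * (30400 * m ^ 3)) = 100 * ν * M := by
      exact_mod_cast hD
    have a2 : (J : ℝ) = 29700 * m ^ 4 * b := by exact_mod_cast hJ
    push_cast
    have : (29700 : ℝ) * (100 * ν * M) = 301 * 300 * 30400 * J ^ 2 := by
      rw [← a, a2]; ring
    nlinarith [sq_nonneg (J : ℝ)]
  have e2 : ((105 * ν : ℕ) : ℝ) ^ m ≤ (100 * J / 2.1) ^ (2 * m - 1) := by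
    have a : (200 : ℝ) * M ^ m = b * N ^ 2 := by exact_mod_cast hbN
    have a2 : (J : ℝ) = 29700 * m ^ 4 * b := by exact_mod_cast hJ
    have a3 := pow_le_pow_left₀ (by positivity) e1 m
    rw [mul_pow, mul_pow, ← pow_mul, show 2 * m = 2 * m - 1 + 1 by omega,
      pow_succ (100 * J : ℝ)] at a3
    have a4 : (2.1 : ℝ) ^ (2 * m - 1) * 9.71 ^ m ≤ 42.83 ^ m := by
      calc _ ≤ (2.1 : ℝ) ^ (2 * m) * 9.71 ^ m := by gcongr <;> norm_num
        _ ≤ _ := by rw [pow_mul, ← mul_pow]; gcongr; norm_num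
    rw [div_pow, le_div_iff₀ (by positivity)]
    have hb1 : (0 : ℝ) < b := by exact_mod_cast hb0
    have hN1 : (0 : ℝ) < N := by exact_mod_cast hN0
    refine le_of_mul_le_mul_right (a := (b * N ^ 2 : ℝ)) ?_ (by positivity)
    generalize ((105 * ν : ℕ) : ℝ) ^ m = X at *
    have hY : 0 < (100 * J : ℝ) ^ (2 * m - 1) := by positivity
    generalize (100 * J : ℝ) ^ (2 * m - 1) = Y at *
    calc X * 2.1 ^ (2 * m - 1) * (b * N ^ 2) = 200 * 2.1 ^ (2 * m - 1) * (X * M ^ m) := by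
          rw [← a]; ring
      _ ≤ 200 * 2.1 ^ (2 * m - 1) * (9.71 ^ m * (Y * (100 * J))) :=
          mul_le_mul_of_nonneg_left a3 (by positivity)
      _ = Y * b * (594000000 * m ^ 4 * (2.1 ^ (2 * m - 1) * 9.71 ^ m)) := by rw [a2]; ring
      _ ≤ Y * b * (594000000 * m ^ 4 * 42.83 ^ m) := by gcongr
      _ ≤ Y * b * N ^ 2 := by gcongr
      _ = _ := by ring
  have e3 : ((105 * ν : ℕ) : ℝ) ^ ((m : ℝ) / (2 * (m : ℝ) - 1)) ≤ 100 * J / 2.1 := by
    have c : (2 * (m : ℝ) - 1) = ((2 * m - 1 : ℕ) : ℝ) := by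
      rw [Nat.cast_sub (by omega)]; push_cast; ring
    rw [c, div_eq_mul_inv, Real.rpow_mul (by positivity), Real.rpow_natCast]
    refine (Real.rpow_le_rpow (by positivity) e2 (by positivity)).trans_eq ?_
    exact Real.pow_rpow_inv_natCast (by positivity) (by omega)
  generalize ((105 * ν : ℕ) : ℝ) ^ ((m : ℝ) / (2 * (m : ℝ) - 1)) = X at e3 ⊢
  generalize (m : ℝ) * (52 / ν) = Y at r3 ⊢
  generalize (m : ℝ) * (56 / M) = Z at r4 ⊢
  push_cast
  rw [le_div_iff₀ (by norm_num)] at e3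
  nlinarith [mul_nonneg (sub_nonneg.2 r3) hJ0.le, mul_nonneg (sub_nonneg.2 r4) hJ0.le]

end Pool.Agent.H.MP_53494a_pr
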